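import Pool.Agent.Helper93.RS.FixR

/-!
RP, second track (MP_464c42_nt). `n + 2` forms, one dyadic range of heights, separate bounds, a number `Q` that bounds all the products without
the largest number and with the square roots of two others: the case `r = n + 2` of `fixR`.
(helper91)
-/

set_option autoImplicit false

open Pool.Agent.Helper87.Camp Pool.Agent.Helper10 Pool.Agent.Helper91.CPX

namespace Pool.Agent.Helper91.RP

open Pool.Agent.Helper24.TU Pool.Agent.Helper24.TV Pool.Agent.Helper87.RP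

/-- All the minors are nonzero: general position. -/
theorem genPos_of_minor {n : ℕ} (L : Matrix (Fin (n + 2)) (Fin (n + 1)) ℤ)
    (hL : ∀ i, minor L i ≠ 0) : GenPos L := by
  classical
  intro e he
  obtain ⟨i, hi⟩ : ∃ i, i ∉ Set.range e := by
    by_contra hcon
    push Not at hcon
    have h1 := Fintype.card_le_of_surjective e hcon
    rw [Fintype.card_fin, Fintype.card_fin] at h1
    omega
  have hs : ∀ a, ∃ b, i.succAbove b = e a := fun a =>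
    Fin.exists_succAbove_eq fun h => hi ⟨a, h⟩
  choose σ hσ using hs
  have hσi : Function.Injective σ := by
    intro a a' h
    apply he
    rw [← hσ a, ← hσ a', h]
  obtain ⟨τ, hτ⟩ : ∃ τ : Equiv.Perm (Fin (n + 1)), ∀ a, τ a = σ a :=
    ⟨Equiv.ofBijective σ (Finite.injective_iff_bijective.1 hσi), fun _ => rfl⟩
  have h1 : L.submatrix e id = (L.submatrix i.succAbove id).submatrix τ id := by
    ext a b
    rw [Matrix.submatrix_apply, Matrix.submatrix_apply, Matrix.submatrix_apply, hτ, hσ]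
    rfl
  rw [h1, Matrix.det_permute]
  refine mul_ne_zero ?_ (hL i)
  exact_mod_cast (Units.ne_zero (Equiv.Perm.sign τ))

/-- The choices for `r = n + 2`: all the forms. -/
theorem sel_self {n : ℕ} (_hn : 1 ≤ n) (Y : Fin (n + 2) → ℕ) (hY : ∀ i, 1 ≤ Y i) (Q : ℝ)
    (hQ : ∀ t j l : Fin (n + 2), t ≠ j → t ≠ l → j ≠ l → (∀ i, Y i ≤ Y t) →
      ((∏ i, Y i : ℕ) : ℝ) / ((Y t : ℝ) * Real.sqrt ((Y j : ℝ) * Y l)) ≤ Q) :
    Pool.Agent.Helper93.RS.Sel n (n + 2) Y Q := by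
  classical
  have hYR : ∀ i, (1 : ℝ) ≤ (Y i : ℝ) := fun i => by exact_mod_cast hY i
  have hP : ∀ t j l : Fin (n + 2), t ≠ j → t ≠ l → j ≠ l → (∀ i, Y i ≤ Y t) →
      (∏ h ∈ ((Finset.univ.erase t).erase j).erase l, (Y h : ℝ)) *
        Real.sqrt ((Y j : ℝ) * Y l) ≤ Q := by
    intro t j l h1 h2 h3 h4
    refine le_trans (le_of_eq ?_) (hQ t j l h1 h2 h3 h4)
    have hs : 0 < Real.sqrt ((Y j : ℝ) * Y l) :=
      Real.sqrt_pos.2 (mul_pos (by linarith [hYR j]) (by linarith [hYR l]))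
    have ht : (0 : ℝ) < Y t := by linarith [hYR t]
    rw [eq_div_iff (mul_pos ht hs).ne']
    have e1 : ((∏ i, Y i : ℕ) : ℝ) =
        (∏ h ∈ ((Finset.univ.erase t).erase j).erase l, (Y h : ℝ)) * Y l * Y j * Y t := by
      push_cast
      rw [Finset.prod_erase_mul _ _ (Finset.mem_erase.2 ⟨h3.symm, Finset.mem_erase.2
          ⟨h2.symm, Finset.mem_univ _⟩⟩),
        Finset.prod_erase_mul _ _ (Finset.mem_erase.2 ⟨h1.symm, Finset.mem_univ _⟩),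
        Finset.prod_erase_mul _ _ (Finset.mem_univ _)]
    have e2 : Real.sqrt ((Y j : ℝ) * Y l) * Real.sqrt ((Y j : ℝ) * Y l) = Y j * Y l :=
      Real.mul_self_sqrt (mul_nonneg (Nat.cast_nonneg _) (Nat.cast_nonneg _))
    rw [e1]
    calc (∏ h ∈ ((Finset.univ.erase t).erase j).erase l, (Y h : ℝ)) *
          Real.sqrt ((Y j : ℝ) * Y l) * ((Y t : ℝ) * Real.sqrt ((Y j : ℝ) * Y l))
        = (∏ h ∈ ((Finset.univ.erase t).erase j).erase l, (Y h : ℝ)) * Y t *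
          (Real.sqrt ((Y j : ℝ) * Y l) * Real.sqrt ((Y j : ℝ) * Y l)) := by ring
      _ = _ := by rw [e2]; ring
  have hpair : ∀ t b b' : Fin (n + 2), t ≠ b → t ≠ b' → b ≠ b' → (∀ i, Y i ≤ Y t) →
      Y b' ≤ Y b → (∏ h ∈ (Finset.univ.erase t).erase b, (Y h : ℝ)) ≤ Q := by
    intro t b b' h1 h2 h3 ht hb
    refine le_trans ?_ (hP t b b' h1 h2 h3 ht)
    have hm : b' ∈ (Finset.univ.erase t).erase b :=
      Finset.mem_erase.2 ⟨h3.symm, Finset.mem_erase.2 ⟨h2.symm, Finset.mem_univ _⟩⟩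
    rw [← Finset.prod_erase_mul _ _ hm]
    refine mul_le_mul_of_nonneg_left ?_ (Finset.prod_nonneg fun i _ => Nat.cast_nonneg _)
    apply Real.le_sqrt_of_sq_le
    have h4 : (Y b' : ℝ) ≤ Y b := by exact_mod_cast hb
    have h5 : (0 : ℝ) ≤ Y b' := Nat.cast_nonneg _
    nlinarith
  obtain ⟨t, -, ht'⟩ := Finset.exists_max_image (Finset.univ : Finset (Fin (n + 2))) Y
    ⟨0, Finset.mem_univ _⟩
  have ht : ∀ i, Y i ≤ Y t := fun i => ht' i (Finset.mem_univ i)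
  refine ⟨t, ?_, ?_⟩
  · intro W htW hW
    obtain ⟨j, hj, l, hl, hjl⟩ := Finset.one_lt_card.1 (show 1 < W.card by omega)
    have h1 : t ≠ j := fun h => htW (h ▸ hj)
    have h2 : t ≠ l := fun h => htW (h ▸ hl)
    exact ⟨id, t, j, l, Function.injective_id, h1, h2, hjl, rfl, hj, hl, hP t j l h1 h2 hjl ht⟩
  · refine ⟨id, t, Function.injective_id, rfl, fun b b' hb hb' hbb => ?_⟩
    rcases le_total (Y b') (Y b) with h | h
    · exact ⟨b, Or.inl rfl, id, t, b, Function.injective_id, hb.symm, rfl, rfl,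
        hpair t b b' hb.symm hb'.symm hbb ht h⟩
    · exact ⟨b', Or.inr rfl, id, t, b', Function.injective_id, hb'.symm, rfl, rfl,
        hpair t b' b hb'.symm hb.symm hbb.symm ht h⟩

theorem fixQ (n : ℕ) (hn : 1 ≤ n) (ε : ℝ) (hε : 0 < ε) :
    ∃ lam0 : ℝ, 0 < lam0 ∧ ∀ lam : ℝ, 0 < lam → lam ≤ lam0 →
      ∀ (S : Finset ℕ) (L : Matrix (Fin (n + 2)) (Fin (n + 1)) ℤ), (∀ i, minor L i ≠ 0) →
      ∃ Cmin : ℕ, 1 ≤ Cmin ∧ ∀ K0 : ℕ, Cmin ≤ K0 → ∃ C : ℝ, 1 ≤ C ∧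
      ∀ (H : ℕ) (Y : Fin (n + 2) → ℕ), 1 ≤ H →
      (∀ i, 1 ≤ Y i ∧ (Y i : ℝ) ≤ ((K0 * H : ℕ) : ℝ) ^ lam) → ∀ T : Finset (Fin (n + 1) → ℤ),
      (∀ x ∈ T, (∀ d : ℤ, (∀ j, d ∣ x j) → IsUnit d) ∧ ht x ≤ H ∧ H ≤ 2 * ht x ∧
        ∀ i, form L i x ≠ 0 ∧ radS S (form L i x) ≤ Y i) →
      ∀ Q : ℝ, 0 ≤ Q → (∀ t j l : Fin (n + 2), t ≠ j → t ≠ l → j ≠ l → (∀ i, Y i ≤ Y t) →
        ((∏ i, Y i : ℕ) : ℝ) / ((Y t : ℝ) * Real.sqrt ((Y j : ℝ) * Y l)) ≤ Q) →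
      (T.card : ℝ) ≤ C * (Q * ((K0 * H : ℕ) : ℝ) ^ (ε * lam)) := by
  obtain ⟨lam0, h0, hmain⟩ := Pool.Agent.Helper93.RS.fixR n (n + 2) hn le_rfl ε hε
  refine ⟨lam0, h0, fun lam h1 h2 S L hL => ?_⟩
  obtain ⟨Cmin, h3, h4⟩ := hmain lam h1 h2 S L (genPos_of_minor L hL)
  refine ⟨Cmin, h3, fun K0 hK => ?_⟩
  obtain ⟨C, h5, h6⟩ := h4 K0 hK
  refine ⟨C, h5, fun H Y hH hY T hT Q _ hQ => ?_⟩
  exact h6 H Y hH hY T hT Q (sel_self hn Y (fun i => (hY i).1) Q hQ)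

end Pool.Agent.Helper91.RP
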