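import Pool.Agent.Helper87.RP.Low

/-!
RP-11 (MP_464c42_nt). For `n + 2` linear forms in `n + 1 ≥ 3` variables the exponent `((n - 1) / n) * lam` is attained.

The forms are `x_0, ..., x_n, -(x_0 + ... + x_n)`, the points `x = (u_1, ..., u_n, 2 ^ s)` with `u_1 + ... + u_n = 0` and
`|u_i|` at most a constant times `2 ^ (s * lam / n)`; the last two values are `2 ^ s` and `-2 ^ s`.
(helper91)
-/

set_option autoImplicit false

namespace Pool.Agent.Helper91.RP

open Pool.Agent.Helper24.TU Pool.Agent.Helper87.RP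

/-- the forms `x_0, ..., x_n, -(x_0 + ... + x_n)` -/
def Lall (n : ℕ) : Matrix (Fin (n + 2)) (Fin (n + 1)) ℤ :=
  fun i j => Fin.lastCases (motive := fun _ => ℤ) (-1) (fun k : Fin (n + 1) => if k = j then 1 else 0) i

theorem lin_castSucc (n : ℕ) (k : Fin (n + 1)) (x : Fin (n + 1) → ℤ) : lin (Lall n) (Fin.castSucc k) x = x k := by
  unfold lin Lall
  simp

theorem lin_last (n : ℕ) (x : Fin (n + 1) → ℤ) : lin (Lall n) (Fin.last (n + 1)) x = -∑ j, x j := by
  unfold lin Lall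
  simp

theorem genPos_Lall (n : ℕ) : GenPos (Lall n) := by
  intro e he hdet
  obtain ⟨v, hv, h0⟩ := Matrix.exists_mulVec_eq_zero_iff.2 hdet
  have h1 : ∀ i, lin (Lall n) (e i) v = 0 := fun i => by
    have := congrFun h0 i
    simpa [Matrix.mulVec, dotProduct, lin] using this
  have h2 : ∃ k : Fin (n + 2), ∀ i, i ≠ k → lin (Lall n) i v = 0 := by
    classical
    have hc : (Finset.univ.image e)ᶜ.card = 1 := by
      rw [Finset.card_compl, Finset.card_image_of_injective _ he, Finset.card_univ, Fintype.card_fin, Fintype.card_fin]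
      omega
    obtain ⟨k, hk⟩ := Finset.card_eq_one.1 hc
    refine ⟨k, fun i hi => ?_⟩
    have h3 : i ∉ (Finset.univ.image e)ᶜ := by
      rw [hk, Finset.mem_singleton]
      exact hi
    rw [Finset.mem_compl, not_not, Finset.mem_image] at h3
    obtain ⟨j, -, rfl⟩ := h3
    exact h1 j
  obtain ⟨k, hk⟩ := h2
  apply hv
  induction k using Fin.lastCases with
  | last =>
    funext j
    have h3 := hk (Fin.castSucc j) (Fin.castSucc_lt_last j).ne
    rwa [lin_castSucc] at h3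
  | cast k =>
    have h3 : ∀ j, j ≠ k → v j = 0 := fun j hj => by
      have h4 := hk (Fin.castSucc j) fun h => hj (Fin.castSucc_injective _ h)
      rwa [lin_castSucc] at h4
    have h4 := hk (Fin.last (n + 1)) (Fin.castSucc_lt_last k).ne'
    rw [lin_last, neg_eq_zero, Finset.sum_eq_single k (fun j _ hj => h3 j hj) fun h => absurd (Finset.mem_univ _) h] at h4
    funext j
    by_cases hj : j = k
    · rw [hj, h4]
      rfl
    · rw [h3 j hj]
      rfl

/-- the points -/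
def pt (m s : ℕ) (v : Fin m → ℕ) : Fin (m + 1 + 1) → ℤ :=
  Fin.snoc (α := fun _ => ℤ) (Fin.snoc (α := fun _ => ℤ) (fun i => 2 * (v i : ℤ) + 1) (-∑ i, (2 * (v i : ℤ) + 1)))
    ((2 : ℤ) ^ s)

theorem pt_last (m s : ℕ) (v : Fin m → ℕ) : pt m s v (Fin.last (m + 1)) = 2 ^ s := by
  unfold pt
  rw [Fin.snoc_last]

theorem pt_mid (m s : ℕ) (v : Fin m → ℕ) : pt m s v (Fin.castSucc (Fin.last m)) = -∑ i, (2 * (v i : ℤ) + 1) := by
  unfold pt
  rw [Fin.snoc_castSucc, Fin.snoc_last]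

theorem pt_in (m s : ℕ) (v : Fin m → ℕ) (i : Fin m) : pt m s v (Fin.castSucc (Fin.castSucc i)) = 2 * (v i : ℤ) + 1 := by
  unfold pt
  rw [Fin.snoc_castSucc, Fin.snoc_castSucc]

theorem sum_pt (m s : ℕ) (v : Fin m → ℕ) : ∑ j, pt m s v j = 2 ^ s := by
  rw [Fin.sum_univ_castSucc, Fin.sum_univ_castSucc, pt_last, pt_mid]
  simp only [pt_in]
  ring

theorem rad_le (S : Finset ℕ) (a : ℤ) (ha : a ≠ 0) : radS S a ≤ a.natAbs := by
  apply Nat.le_of_dvd (Int.natAbs_pos.2 ha)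
  unfold radS
  refine dvd_trans (Finset.prod_dvd_prod_of_subset _ _ (fun p => p) (Finset.filter_subset _ _)) ?_
  exact Nat.prod_primeFactors_dvd _

theorem rad_two (s : ℕ) (a : ℤ) (ha : a.natAbs = 2 ^ s) : radS ∅ a ≤ 2 := by
  unfold radS
  rw [ha]
  rcases Nat.eq_zero_or_pos s with h | h
  · subst h
    simp
  · rw [Nat.primeFactors_prime_pow h.ne' Nat.prime_two]
    simp

theorem sum_bd (m M : ℕ) (v : Fin m → ℕ) (hv : ∀ i, v i < M) : ∑ i, (2 * v i + 1) ≤ 2 * m * M := by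
  calc ∑ i, (2 * v i + 1) ≤ ∑ _i : Fin m, 2 * M := Finset.sum_le_sum fun i _ => by have := hv i; omega
    _ = 2 * m * M := by rw [Finset.sum_const, Finset.card_univ, Fintype.card_fin, smul_eq_mul]; ring

theorem pt_mem (m s M B : ℕ) (lam : ℝ) (hm : 1 ≤ m) (v : Fin m → ℕ) (hv : ∀ i, v i < M) (hlam : 0 < lam)
    (h1 : ((8 * m * 2 ^ m * M ^ (m + 1) : ℕ) : ℝ) ≤ ((2 : ℝ) ^ s) ^ lam) (h2 : 2 ^ s ≤ B) (h3 : 2 * m * M ≤ B) :
    pt m s v ∈ pts ∅ (Lall (m + 1)) 1 lam B := by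
  have hsum := sum_bd m M v hv
  have hmid : (pt m s v (Fin.castSucc (Fin.last m))).natAbs = ∑ i, (2 * v i + 1) := by
    rw [pt_mid, Int.natAbs_neg]
    have : (∑ i, (2 * (v i : ℤ) + 1)) = ((∑ i, (2 * v i + 1) : ℕ) : ℤ) := by push_cast; rfl
    rw [this, Int.natAbs_natCast]
  have hin : ∀ i, (pt m s v (Fin.castSucc (Fin.castSucc i))).natAbs = 2 * v i + 1 := fun i => by
    rw [pt_in]
    omega
  have hlast : (pt m s v (Fin.last (m + 1))).natAbs = 2 ^ s := by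
    rw [pt_last, Int.natAbs_pow]
    rfl
  have hpos : 1 ≤ ∑ i, (2 * v i + 1) := by
    calc 1 ≤ 2 * v ⟨0, hm⟩ + 1 := by omega
      _ ≤ ∑ i, (2 * v i + 1) := Finset.single_le_sum (f := fun i => 2 * v i + 1) (fun i _ => Nat.zero_le _)
        (Finset.mem_univ _)
  have h2s : 1 ≤ 2 ^ s := Nat.one_le_two_pow
  have hne : ∀ j, pt m s v j ≠ 0 := by
    intro j
    rw [← Int.natAbs_ne_zero]
    induction j using Fin.lastCases with
    | last => rw [hlast]; omega
    | cast j =>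
      induction j using Fin.lastCases with
      | last => rw [hmid]; omega
      | cast i => rw [hin]; omega
  refine ⟨fun d hd => ?_, fun i => ?_, ?_, ?_⟩
  · have ha := hd (Fin.last (m + 1))
    have hb := hd (Fin.castSucc (Fin.castSucc ⟨0, hm⟩))
    rw [pt_last] at ha
    rw [pt_in] at hb
    have hc : IsCoprime ((2 : ℤ) ^ s) (2 * ((v ⟨0, hm⟩ : ℕ) : ℤ) + 1) :=
      IsCoprime.pow_left ⟨-((v ⟨0, hm⟩ : ℕ) : ℤ), 1, by ring⟩
    exact hc.isUnit_of_dvd' ha hb
  · induction i using Fin.lastCases with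
    | last =>
      rw [lin_last, sum_pt, neg_ne_zero]
      positivity
    | cast j =>
      rw [lin_castSucc]
      exact hne j
  · have hP : ∏ i, radS ∅ (lin (Lall (m + 1)) i (pt m s v)) ≤ 8 * m * 2 ^ m * M ^ (m + 1) := by
      rw [Fin.prod_univ_castSucc, lin_last, sum_pt]
      simp only [lin_castSucc]
      rw [Fin.prod_univ_castSucc, Fin.prod_univ_castSucc]
      have e1 : ∏ i : Fin m, radS ∅ (pt m s v (Fin.castSucc (Fin.castSucc i))) ≤ (2 * M) ^ m := by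
        calc ∏ i : Fin m, radS ∅ (pt m s v (Fin.castSucc (Fin.castSucc i))) ≤ ∏ _i : Fin m, 2 * M := by
              refine Finset.prod_le_prod' fun i _ => ?_
              refine (rad_le ∅ _ (hne _)).trans ?_
              rw [hin]
              have := hv i
              omega
          _ = (2 * M) ^ m := by rw [Finset.prod_const, Finset.card_univ, Fintype.card_fin]
      have e2 : radS ∅ (pt m s v (Fin.castSucc (Fin.last m))) ≤ 2 * m * M := by
        refine (rad_le ∅ _ (hne _)).trans ?_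
        rw [hmid]
        exact hsum
      have e3 : radS ∅ (pt m s v (Fin.last (m + 1))) ≤ 2 := rad_two s _ hlast
      have e4 : radS ∅ (-(2 : ℤ) ^ s) ≤ 2 := rad_two s _ (by rw [Int.natAbs_neg, Int.natAbs_pow]; rfl)
      calc _ ≤ (2 * M) ^ m * (2 * m * M) * 2 * 2 :=
            Nat.mul_le_mul (Nat.mul_le_mul (Nat.mul_le_mul e1 e2) e3) e4
        _ = 8 * m * 2 ^ m * M ^ (m + 1) := by
            rw [mul_pow, pow_succ]
            ring
    have h5 : (2 ^ s : ℕ) ≤ ht (pt m s v) := by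
      rw [← hlast]
      exact le_ht _ _
    have h6 : ((2 : ℝ) ^ s) ≤ (ht (pt m s v) : ℝ) := by exact_mod_cast h5
    calc ∏ i, (radS ∅ (lin (Lall (m + 1)) i (pt m s v)) : ℝ)
        = ((∏ i, radS ∅ (lin (Lall (m + 1)) i (pt m s v)) : ℕ) : ℝ) := by push_cast; rfl
      _ ≤ ((8 * m * 2 ^ m * M ^ (m + 1) : ℕ) : ℝ) := by exact_mod_cast hP
      _ ≤ ((2 : ℝ) ^ s) ^ lam := h1
      _ ≤ (ht (pt m s v) : ℝ) ^ lam := Real.rpow_le_rpow (by positivity) h6 hlam.le
      _ = 1 * (ht (pt m s v) : ℝ) ^ lam := (one_mul _).symm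
  · refine ht_le _ _ fun j => ?_
    induction j using Fin.lastCases with
    | last => rw [hlast]; exact h2
    | cast j =>
      induction j using Fin.lastCases with
      | last => rw [hmid]; exact hsum.trans h3
      | cast i =>
        rw [hin]
        have h7 : 2 * v i + 1 ≤ ∑ i, (2 * v i + 1) :=
          Finset.single_le_sum (f := fun i => 2 * v i + 1) (fun i _ => Nat.zero_le _) (Finset.mem_univ i)
        omega

theorem card_ge (m s M B : ℕ) (lam : ℝ) (hm : 1 ≤ m) (hlam : 0 < lam)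
    (h1 : ((8 * m * 2 ^ m * M ^ (m + 1) : ℕ) : ℝ) ≤ ((2 : ℝ) ^ s) ^ lam) (h2 : 2 ^ s ≤ B) (h3 : 2 * m * M ≤ B) :
    M ^ m ≤ (pts ∅ (Lall (m + 1)) 1 lam B).ncard := by
  classical
  have hinj : Function.Injective (pt m s) := by
    intro v w h
    funext i
    have h4 := congrFun h (Fin.castSucc (Fin.castSucc i))
    rw [pt_in, pt_in] at h4
    omega
  have h5 : (((Fintype.piFinset fun _ : Fin m => Finset.range M).image (pt m s) : Finset (Fin (m + 1 + 1) → ℤ)) :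
      Set (Fin (m + 1 + 1) → ℤ)) ⊆ pts ∅ (Lall (m + 1)) 1 lam B := by
    intro x hx
    rw [Finset.mem_coe, Finset.mem_image] at hx
    obtain ⟨v, hv, rfl⟩ := hx
    rw [Fintype.mem_piFinset] at hv
    exact pt_mem m s M B lam hm v (fun i => Finset.mem_range.1 (hv i)) hlam h1 h2 h3
  have h6 := Set.ncard_le_ncard h5 (finite_pts _ _ _ _ _)
  rw [Set.ncard_coe_finset, Finset.card_image_of_injective _ hinj, Fintype.card_piFinset] at h6
  simpa using h6

/-- For `n + 2` forms in `n + 1 ≥ 3` variables the exponent `((n - 1) / n) * lam` is attained, for every `lam ≤ 1`. -/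
theorem low_all (n : ℕ) (hn : 2 ≤ n) : ∃ L : Matrix (Fin (n + 2)) (Fin (n + 1)) ℤ, GenPos L ∧
    ∀ lam : ℝ, 0 < lam → lam ≤ 1 → ∃ c : ℝ, 0 < c ∧ ∃ B0 : ℕ, ∀ B : ℕ, B0 ≤ B →
      c * (B : ℝ) ^ ((((n : ℝ) - 1) / n) * lam) ≤ ((pts ∅ L 1 lam B).ncard : ℝ) := by
  obtain ⟨m, rfl⟩ : ∃ m, n = m + 1 := ⟨n - 1, by omega⟩
  have hm : 1 ≤ m := by omega
  refine ⟨Lall (m + 1), genPos_Lall _, fun lam hlam hlam1 => ?_⟩
  set C0 : ℕ := 8 * m * 2 ^ m with hC0
  have hC1 : 1 ≤ C0 := by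
    have : 1 ≤ 2 ^ m := Nat.one_le_two_pow
    nlinarith
  have hCpos : (0 : ℝ) < C0 := by exact_mod_cast hC1
  have hm1 : (0 : ℝ) < (m : ℝ) + 1 := by positivity
  set θ : ℝ := 1 / ((m : ℝ) + 1) with hθ
  have hθ0 : 0 < θ := by positivity
  refine ⟨(1 / 2) ^ m * (((1 / 2 : ℝ) ^ lam / C0) ^ θ) ^ m, by positivity, ⌈2 * (C0 : ℝ) ^ (1 / lam)⌉₊ + 1, fun B hB => ?_⟩
  have hB1 : 1 ≤ B := by omega
  have hBr : (1 : ℝ) ≤ B := by exact_mod_cast hB1
  have hB2 : 2 * (C0 : ℝ) ^ (1 / lam) ≤ B := by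
    have h4 : (⌈2 * (C0 : ℝ) ^ (1 / lam)⌉₊ : ℝ) ≤ B := by
      have : ⌈2 * (C0 : ℝ) ^ (1 / lam)⌉₊ ≤ B := by omega
      exact_mod_cast this
    exact (Nat.le_ceil _).trans h4
  set s : ℕ := Nat.log 2 B with hs
  have h2 : 2 ^ s ≤ B := Nat.pow_log_le_self 2 (by omega)
  have h2' : (B : ℝ) / 2 ≤ (2 : ℝ) ^ s := by
    have h4 : B < 2 ^ (s + 1) := Nat.lt_pow_succ_log_self (by norm_num) B
    have h5 : (B : ℝ) < 2 ^ (s + 1) := by exact_mod_cast h4
    rw [pow_succ] at h5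
    linarith
  set X : ℝ := ((2 : ℝ) ^ s) ^ lam with hX
  have hX1 : ((B : ℝ) / 2) ^ lam ≤ X := Real.rpow_le_rpow (by positivity) h2' hlam.le
  have hX2 : (C0 : ℝ) ≤ X := by
    refine le_trans ?_ hX1
    calc (C0 : ℝ) = ((C0 : ℝ) ^ (1 / lam)) ^ lam := by
          rw [← Real.rpow_mul hCpos.le, one_div_mul_cancel hlam.ne', Real.rpow_one]
      _ ≤ ((B : ℝ) / 2) ^ lam := Real.rpow_le_rpow (by positivity) (by linarith) hlam.le
  have hX3 : X ≤ (2 : ℝ) ^ s := by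
    calc X ≤ ((2 : ℝ) ^ s) ^ (1 : ℝ) := Real.rpow_le_rpow_of_exponent_le (one_le_pow₀ (by norm_num)) hlam1
      _ = (2 : ℝ) ^ s := Real.rpow_one _
  set y : ℝ := (X / C0) ^ θ with hy
  have hy1 : 1 ≤ y := Real.one_le_rpow (by rw [le_div_iff₀ hCpos]; linarith) hθ0.le
  set M : ℕ := ⌊y⌋₊ with hM
  have hMy : (M : ℝ) ≤ y := Nat.floor_le (by linarith)
  have hM1 : 1 ≤ M := Nat.le_floor (by exact_mod_cast hy1)
  have hM1r : (1 : ℝ) ≤ M := by exact_mod_cast hM1
  have hyM : y / 2 ≤ M := by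
    have h4 : y < M + 1 := Nat.lt_floor_add_one y
    linarith
  have hypow : y ^ (m + 1) = X / C0 := by
    rw [hy, ← Real.rpow_natCast, ← Real.rpow_mul (by positivity), hθ]
    push_cast
    rw [one_div_mul_cancel hm1.ne', Real.rpow_one]
  have h1 : ((8 * m * 2 ^ m * M ^ (m + 1) : ℕ) : ℝ) ≤ ((2 : ℝ) ^ s) ^ lam := by
    rw [← hC0]
    push_cast
    have h4 : (M : ℝ) ^ (m + 1) ≤ X / C0 := by
      rw [← hypow]
      exact pow_le_pow_left₀ (by positivity) hMy _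
    rw [le_div_iff₀ hCpos] at h4
    linarith
  have h3 : 2 * m * M ≤ B := by
    have h4 : ((2 * m * M : ℕ) : ℝ) ≤ ((8 * m * 2 ^ m * M ^ (m + 1) : ℕ) : ℝ) := by
      have h5 : 2 * m * M ≤ 8 * m * 2 ^ m * M ^ (m + 1) := by
        have h6 : M ≤ M ^ (m + 1) := Nat.le_self_pow (by omega) M
        have h7 : 2 * m ≤ 8 * m * 2 ^ m := by
          have : 1 ≤ 2 ^ m := Nat.one_le_two_pow
          nlinarith
        exact Nat.mul_le_mul h7 h6
      exact_mod_cast h5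
    have h8 : ((2 * m * M : ℕ) : ℝ) ≤ ((2 ^ s : ℕ) : ℝ) := by
      push_cast at h4 h1 ⊢
      linarith
    exact (Nat.cast_le.1 h8).trans h2
  have h9 := card_ge m s M B lam hm hlam h1 h2 h3
  have h10 : ((M : ℝ)) ^ m ≤ ((pts ∅ (Lall (m + 1)) 1 lam B).ncard : ℝ) := by exact_mod_cast h9
  refine le_trans ?_ h10
  have h11 : (1 / 2 : ℝ) ^ m * y ^ m ≤ (M : ℝ) ^ m := by
    rw [← mul_pow]
    exact pow_le_pow_left₀ (by positivity) (by linarith) _
  refine le_trans ?_ h11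
  rw [mul_assoc]
  refine mul_le_mul_of_nonneg_left ?_ (by positivity)
  have h12 : (B : ℝ) ^ ((((m + 1 : ℕ) : ℝ) - 1) / ((m + 1 : ℕ) : ℝ) * lam) = (((B : ℝ) ^ lam) ^ θ) ^ m := by
    rw [← Real.rpow_natCast, ← Real.rpow_mul (by positivity), ← Real.rpow_mul (by positivity)]
    congr 1
    rw [hθ]
    push_cast
    field_simp
    ring
  rw [h12, ← mul_pow, ← Real.mul_rpow (by positivity) (by positivity)]
  refine pow_le_pow_left₀ (by positivity) (Real.rpow_le_rpow (by positivity) ?_ hθ0.le) _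
  rw [div_mul_eq_mul_div, ← Real.mul_rpow (by norm_num) (by positivity)]
  refine div_le_div_of_nonneg_right ?_ hCpos.le
  refine le_trans (le_of_eq ?_) hX1
  congr 1
  ring

end Pool.Agent.Helper91.RP
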